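import Pool.Agent.W580.SH.StmB

set_option autoImplicit false

namespace Pool.Agent.W481.SH

open Pool.Agent.W580.SH

theorem orient_one (o : ℝ) : orient 1 o = o := by
  unfold orient
  rw [if_pos rfl]

theorem orient_zero (o : ℝ) : orient 0 o = 1 - o := by
  unfold orient
  rw [if_neg (by norm_num)]

theorem orient_ge {e : ℤ} (he : e = 0 ∨ e = 1) {o : ℝ} (ho : o ≤ 1 / 2) : o ≤ orient e o := by
  rcases he with rfl | rfl
  · rw [orient_zero]
    linarith
  · rw [orient_one]

theorem arith {e g : ℤ} {θ x y z : ℝ} (he : e = 0 ∨ e = 1) (hg : g = 0 ∨ g = 1) (hθ : θ < 1 / 2)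
    (hx : x ≤ 1 / 2) (hy : y ≤ 1 / 2) (hz : z ≤ 1 / 2)
    (hy2 : y = 0 ∨ θ ≤ y) (h1 : orient e y + orient g z ≤ x + θ) (h2 : 1 - θ - x ≤ orient e y)
    (h3 : 1 - θ - x ≤ orient g z) : θ ≤ y := by
  rcases hy2 with h | h
  · exfalso
    subst h
    rcases he with rfl | rfl
    · rw [orient_zero] at h1
      linarith
    · rw [orient_one] at h2
      linarith
  · exact h

theorem main (h : S_PRISM) : S_BOUND := by
  intro R _ _ I A O θ hB l j k e g u v hl hj hk he hg hP
  obtain ⟨h1, h2, h3⟩ := h R I A O θ hB l j k e g u v he hg hP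
  have hθ := hB.lt
  have hOl := hB.O1 l
  have hOj := hB.O1 j
  have hOk := hB.O1 k
  have gj := orient_ge he hOj
  have gk := orient_ge hg hOk
  have tj : θ ≤ O j := arith he hg hθ hOl hOj hOk (hB.Oth j hj) h1 h2 h3
  have tk : θ ≤ O k := arith hg he hθ hOl hOk hOj (hB.Oth k hk) (by linarith) h3 h2
  refine ⟨by linarith, by linarith, tj, tk, fun hlt => ?_⟩
  have e1 : O j = θ := by linarith
  have e2 : O k = θ := by linarith
  refine ⟨e1, e2, ?_, ?_⟩
  · rcases he with rfl | rfl
    · rw [orient_zero] at h1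
      linarith
    · rfl
  · rcases hg with rfl | rfl
    · rw [orient_zero] at h1
      linarith
    · rfl

end Pool.Agent.W481.SH
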